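import Pool.Agent.Helper42.RZ.Basic

/-! # RZ-S1: invariance of the measure `sig` (Archimedes) -/

set_option autoImplicit false

open MeasureTheory Set Metric Filter Topology
open scoped ENNReal

namespace Pool.Agent.Helper93.RZ

open Pool.Agent.Helper42.RZ

/-- the cone map in coordinates `(R, φ, z)` -/
noncomputable def F (x : Fin 3 → ℝ) : Fin 3 → ℝ :=
  ![x 0 * (Real.sqrt (1 - x 2 ^ 2) * Real.cos (x 1)),
    x 0 * (Real.sqrt (1 - x 2 ^ 2) * Real.sin (x 1)), x 0 * x 2]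

/-- its Jacobi matrix -/
noncomputable def M (x : Fin 3 → ℝ) : Matrix (Fin 3) (Fin 3) ℝ :=
  !![Real.sqrt (1 - x 2 ^ 2) * Real.cos (x 1), -(x 0 * Real.sqrt (1 - x 2 ^ 2) * Real.sin (x 1)),
      -(x 0 * x 2 / Real.sqrt (1 - x 2 ^ 2) * Real.cos (x 1));
    Real.sqrt (1 - x 2 ^ 2) * Real.sin (x 1), x 0 * Real.sqrt (1 - x 2 ^ 2) * Real.cos (x 1),
      -(x 0 * x 2 / Real.sqrt (1 - x 2 ^ 2) * Real.sin (x 1));
    x 2, 0, x 0]

/-- its derivative -/
noncomputable def F' (x : Fin 3 → ℝ) : (Fin 3 → ℝ) →L[ℝ] (Fin 3 → ℝ) :=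
  LinearMap.toContinuousLinearMap (Matrix.toLin' (M x))

theorem det_F' {x : Fin 3 → ℝ} (hx : x 2 ^ 2 < 1) : (F' x).det = x 0 ^ 2 := by
  have h1 : 0 < Real.sqrt (1 - x 2 ^ 2) := Real.sqrt_pos.2 (by linarith)
  have h2 : Real.sqrt (1 - x 2 ^ 2) ^ 2 = 1 - x 2 ^ 2 := Real.sq_sqrt (by linarith)
  have h3 := Real.sin_sq_add_cos_sq (x 1)
  rw [F', ContinuousLinearMap.det, LinearMap.coe_toContinuousLinearMap, LinearMap.det_toLin',
    Matrix.det_fin_three]
  simp only [M, Matrix.of_apply, Matrix.cons_val', Matrix.cons_val_zero, Matrix.cons_val_one,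
    Matrix.cons_val]
  generalize Real.sqrt (1 - x 2 ^ 2) = q at *
  generalize Real.sin (x 1) = s at *
  generalize Real.cos (x 1) = c at *
  have hq : q ≠ 0 := h1.ne'
  field_simp
  linear_combination x 0 ^ 2 * (c ^ 2 + s ^ 2) * h2 + x 0 ^ 2 * h3

theorem hasFDerivAt_F {x : Fin 3 → ℝ} (hx : x 2 ^ 2 < 1) : HasFDerivAt F (F' x) x := by
  have h1 : 0 < Real.sqrt (1 - x 2 ^ 2) := Real.sqrt_pos.2 (by linarith)
  have h0 : 1 - x 2 ^ 2 ≠ 0 := by linarith
  have p (i : Fin 3) : HasFDerivAt (fun y : Fin 3 → ℝ => y i)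
      (ContinuousLinearMap.proj (R := ℝ) (φ := fun _ : Fin 3 => ℝ) i) x :=
    (ContinuousLinearMap.proj (R := ℝ) (φ := fun _ : Fin 3 => ℝ) i).hasFDerivAt
  have hs : HasFDerivAt (fun y : Fin 3 → ℝ => Real.sqrt (1 - y 2 ^ 2)) _ x :=
    HasFDerivAt.sqrt (((p 2).pow 2).const_sub 1) h0
  have hc := (p 1).cos
  have hn := (p 1).sin
  rw [hasFDerivAt_pi']
  intro i
  fin_cases i
  · refine ((p 0).mul (hs.mul hc)).congr_fderiv ?_
    ext v
    simp [F', M, Matrix.toLin'_apply, dotProduct, Fin.sum_univ_three]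
    field_simp
    ring
  · refine ((p 0).mul (hs.mul hn)).congr_fderiv ?_
    ext v
    simp [F', M, Matrix.toLin'_apply, dotProduct, Fin.sum_univ_three]
    field_simp
    ring
  · refine ((p 0).mul (p 2)).congr_fderiv ?_
    ext v
    simp [F', M, Matrix.toLin'_apply, dotProduct, Fin.sum_univ_three]
    ring

/-- the coordinate domain -/
def S (B : Set E3) : Set (Fin 3 → ℝ) :=
  {x | x 0 ∈ Ioo (0 : ℝ) 1 ∧ (x 1, x 2) ∈ pt ⁻¹' B ∩ Q0}

theorem measurableSet_S {B : Set E3} (hB : MeasurableSet B) : MeasurableSet (S B) := by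
  have h1 : Measurable fun x : Fin 3 → ℝ => x 0 := measurable_pi_apply 0
  have h2 : Measurable fun x : Fin 3 → ℝ => (x 1, x 2) :=
    (measurable_pi_apply 1).prodMk (measurable_pi_apply 2)
  exact (h1 measurableSet_Ioo).inter (h2 ((measurable_pt hB).inter measurableSet_Q0))

theorem toLp_F (x : Fin 3 → ℝ) : (WithLp.toLp 2 (F x) : E3) = x 0 • pt (x 1, x 2) := by
  ext i
  fin_cases i <;> simp [F, pt]

theorem injOn_F (B : Set E3) : InjOn F (S B) := by
  rintro x ⟨⟨hx0, -⟩, -, hx⟩ y ⟨⟨hy0, -⟩, -, hy⟩ h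
  have h1 : x 0 • pt (x 1, x 2) = y 0 • pt (y 1, y 2) := by
    rw [← toLp_F, ← toLp_F, h]
  have h2 : ‖x 0 • pt (x 1, x 2)‖ = x 0 := by
    rw [norm_smul, norm_pt (abs_le.2 ⟨hx.2.1.le, hx.2.2.le⟩), mul_one, Real.norm_of_nonneg hx0.le]
  have h3 : ‖y 0 • pt (y 1, y 2)‖ = y 0 := by
    rw [norm_smul, norm_pt (abs_le.2 ⟨hy.2.1.le, hy.2.2.le⟩), mul_one, Real.norm_of_nonneg hy0.le]
  have h4 : x 0 = y 0 := by rw [← h2, h1, h3]
  have h5 : pt (x 1, x 2) = pt (y 1, y 2) := by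
    rw [h4] at h1
    exact smul_right_injective _ hy0.ne' h1
  have h6 : (x 1, x 2) = (y 1, y 2) := by
    rw [← co_pt hx, h5, co_pt hy]
  ext i
  fin_cases i
  · exact h4
  · exact congrArg Prod.fst h6
  · exact congrArg Prod.snd h6

theorem volume_image {B : Set E3} (hB : MeasurableSet B) :
    volume (F '' S B) = ENNReal.ofReal (1 / 3) * volume (pt ⁻¹' B ∩ Q0) := by
  rw [← lintegral_abs_det_fderiv_eq_addHaar_image volume (measurableSet_S hB)
    (f' := F') (fun x hx => (hasFDerivAt_F ?_).hasFDerivWithinAt) (injOn_F B)]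
  swap
  · rcases hx with ⟨-, -, -, h3, h4⟩
    nlinarith
  have e1 : ∫⁻ x in S B, ENNReal.ofReal |(F' x).det| =
      ∫⁻ x in S B, ENNReal.ofReal (x 0 ^ 2) := by
    refine setLIntegral_congr_fun (measurableSet_S hB) fun x hx => ?_
    rcases hx with ⟨-, -, -, h3, h4⟩
    rw [det_F' (by nlinarith), abs_of_nonneg (sq_nonneg _)]
  rw [e1]
  let e : (Fin 3 → ℝ) ≃ᵐ ℝ × (ℝ × ℝ) :=
    (MeasurableEquiv.piFinSuccAbove (fun _ : Fin 3 => ℝ) 0).trans
      (MeasurableEquiv.prodCongr (MeasurableEquiv.refl ℝ) MeasurableEquiv.finTwoArrow)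
  have he : MeasurePreserving e volume volume :=
    (volume_preserving_piFinSuccAbove (fun _ : Fin 3 => ℝ) 0).trans
      ((MeasurePreserving.id volume).prod (volume_preserving_finTwoArrow ℝ))
  have hS : S B = e ⁻¹' (Ioo (0 : ℝ) 1 ×ˢ (pt ⁻¹' B ∩ Q0)) := by
    ext x
    rfl
  have e2 : ∫⁻ x in S B, ENNReal.ofReal (x 0 ^ 2) =
      ∫⁻ y in Ioo (0 : ℝ) 1 ×ˢ (pt ⁻¹' B ∩ Q0), ENNReal.ofReal (y.1 ^ 2) := by
    rw [hS, ← he.setLIntegral_comp_preimage (measurableSet_Ioo.prod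
      ((measurable_pt hB).inter measurableSet_Q0)) (by fun_prop)]
    rfl
  rw [e2, Measure.volume_eq_prod, ← Measure.prod_restrict, lintegral_prod _ (by fun_prop)]
  simp only [lintegral_const, Measure.restrict_apply_univ]
  rw [lintegral_mul_const _ (by fun_prop)]
  congr 1
  rw [← ofReal_integral_eq_lintegral_ofReal, ← integral_Ioc_eq_integral_Ioo,
    ← intervalIntegral.integral_of_le zero_le_one, integral_pow]
  · norm_num
  · exact ((continuous_pow 2).integrableOn_Icc (a := (0 : ℝ)) (b := 1)).mono_set Ioo_subset_Icc_self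
  · exact Eventually.of_forall fun x => sq_nonneg x

theorem volume_cone {B : Set E3} (hB : MeasurableSet B) :
    volume {x : E3 | x ≠ 0 ∧ ‖x‖ < 1 ∧ ‖x‖⁻¹ • x ∈ B} = volume (F '' S B) := by
  have hT : MeasurableSet {x : E3 | x ≠ 0 ∧ ‖x‖ < 1 ∧ ‖x‖⁻¹ • x ∈ B} := by
    have h1 : MeasurableSet {x : E3 | x ≠ 0} := (measurableSet_singleton 0).compl
    have h2 : MeasurableSet {x : E3 | ‖x‖ < 1} := measurableSet_lt measurable_norm measurable_const
    have h3 : Measurable fun x : E3 => ‖x‖⁻¹ • x := measurable_norm.inv.smul measurable_id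
    exact h1.inter (h2.inter (h3 hB))
  rw [← (PiLp.volume_preserving_toLp (Fin 3)).measure_preimage hT.nullMeasurableSet]
  refine le_antisymm ?_ (measure_mono ?_)
  · have h1 : (volume : Measure (Fin 3 → ℝ)) {y | y 0 = 0} = 0 := by
      have h2 := Measure.addHaar_submodule (volume : Measure (Fin 3 → ℝ))
        (LinearMap.ker (LinearMap.proj (R := ℝ) (φ := fun _ : Fin 3 => ℝ) 0)) (fun h => by
          have h3 : (fun _ => (1 : ℝ)) ∈
              LinearMap.ker (LinearMap.proj (R := ℝ) (φ := fun _ : Fin 3 => ℝ) 0) := by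
            rw [h]; trivial
          simp at h3)
      exact h2
    refine (measure_mono (t := F '' S B ∪ {y | y 0 = 0}) ?_).trans
      ((measure_union_le _ _).trans (by rw [h1, add_zero]))
    rintro y ⟨hy0, hy1, hy2⟩
    by_cases h0 : y 0 = 0
    · exact Or.inr h0
    refine Or.inl ?_
    have hn : 0 < ‖(WithLp.toLp 2 y : E3)‖ := norm_pos_iff.2 hy0
    set n := ‖(WithLp.toLp 2 y : E3)‖ with hnd
    set u : E3 := n⁻¹ • (WithLp.toLp 2 y : E3) with hu
    have hun : ‖u‖ = 1 := by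
      rw [hu, norm_smul, norm_inv, Real.norm_of_nonneg hn.le, ← hnd, inv_mul_cancel₀ hn.ne']
    have hu0 : u 0 ≠ 0 := by
      rw [hu]
      simp [hn.ne', h0]
    have hus : u 0 ^ 2 + u 1 ^ 2 + u 2 ^ 2 = 1 := by
      have := EuclideanSpace.real_norm_sq_eq u
      rw [hun, Fin.sum_univ_three] at this
      linarith
    have hu2 : |u 2| < 1 := by
      rw [← sq_lt_one_iff_abs_lt_one]
      have : 0 < u 0 ^ 2 := by positivity
      nlinarith [sq_nonneg (u 1)]
    obtain ⟨h1, h2⟩ := pt_co hun hu2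
    refine ⟨![n, (co u).1, (co u).2], ⟨⟨hn, hy1⟩, ?_, h2⟩, ?_⟩
    · change pt (co u) ∈ B
      rw [h1]
      exact hy2
    · have h3 := toLp_F ![n, (co u).1, (co u).2]
      change WithLp.toLp 2 _ = n • pt (co u) at h3
      rw [h1, hu, smul_smul, mul_inv_cancel₀ hn.ne', one_smul] at h3
      exact WithLp.toLp_injective 2 h3
  · rintro _ ⟨x, ⟨⟨h0, h1⟩, h2, h3⟩, rfl⟩
    have h4 : ‖x 0 • pt (x 1, x 2)‖ = x 0 := by
      rw [norm_smul, norm_pt (abs_le.2 ⟨h3.2.1.le, h3.2.2.le⟩), mul_one, Real.norm_of_nonneg h0.le]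
    change WithLp.toLp 2 (F x) ≠ 0 ∧ ‖WithLp.toLp 2 (F x)‖ < 1 ∧
      ‖WithLp.toLp 2 (F x)‖⁻¹ • WithLp.toLp 2 (F x) ∈ B
    rw [toLp_F, h4, smul_smul, inv_mul_cancel₀ h0.ne', one_smul]
    exact ⟨norm_pos_iff.1 (by rw [h4]; exact h0), h1, h2⟩

/-- `sig` is the normalised cone measure of the unit ball -/
theorem sig_cone {B : Set E3} (hB : MeasurableSet B) :
    sig B = ENNReal.ofReal (3 / (4 * Real.pi)) *
      volume {x : E3 | x ≠ 0 ∧ ‖x‖ < 1 ∧ ‖x‖⁻¹ • x ∈ B} := by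
  have hpi := Real.pi_pos
  rw [sig_apply hB, volume_cone hB, volume_image hB, ← mul_assoc, ← ENNReal.ofReal_mul (by positivity),
    ← ENNReal.ofReal_inv_of_pos (by positivity)]
  congr 2
  field_simp

theorem map_sig (g : E3 ≃ₗᵢ[ℝ] E3) : Measure.map g sig = sig := by
  ext B hB
  have hg : Measurable g := g.continuous.measurable
  rw [Measure.map_apply hg hB, sig_cone (hg hB), sig_cone hB]
  congr 1
  have hT : MeasurableSet {x : E3 | x ≠ 0 ∧ ‖x‖ < 1 ∧ ‖x‖⁻¹ • x ∈ B} := by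
    have h1 : MeasurableSet {x : E3 | x ≠ 0} := (measurableSet_singleton 0).compl
    have h2 : MeasurableSet {x : E3 | ‖x‖ < 1} := measurableSet_lt measurable_norm measurable_const
    have h3 : Measurable fun x : E3 => ‖x‖⁻¹ • x := measurable_norm.inv.smul measurable_id
    exact h1.inter (h2.inter (h3 hB))
  rw [← (LinearIsometryEquiv.measurePreserving g).measure_preimage hT.nullMeasurableSet]
  congr 1
  ext x
  simp only [mem_ofPred_eq, mem_preimage, map_smul, LinearIsometryEquiv.norm_map, ne_eq,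
    map_eq_zero_iff g g.injective]

end Pool.Agent.Helper93.RZ
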